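import Pool.Agent.Run7.h414.DP.Few

/-!
# Correlations of the divisor functions with a power saving, for almost all shifts with determinantal digits

The digits of the random integer `v` are given by a determinantal random set `S` of positions (a determinantal point process
with an arbitrary Hermitian kernel): the digit number `i` is `y i` if `i ∈ S` and `x i ≠ y i` otherwise. Examples (their
existence is not used and not formalised): the edges of a uniform spanning tree of a graph with `k` edges; stationary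
determinantal processes with any symbol which is not almost everywhere `0` or almost everywhere `1` (for example the discrete
sine process with any density); independent digits; and all the events for such processes whose probability is at least
`1 / k ^ t`, for example a prescribed number of elements of `S`.

Definitions used (in `Pool.Agent.Run7.h414.DP.Law` and `Pool.Agent.Run7.h414.DP.Fam`): `DetLaw`, `GoodPos`, `DetDigits`.

Method: the characteristic function is `det (1 + D A)`; the inequality `|det N|² ≤ exp (tr N* N - k)` for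
`N = 1 + B D B*`, `A = B* B`, bounds it by `exp (- E)` with an energy `E` which is at least a constant times the number of
the places where the frequency is far from the rational numbers with small denominators. So the Fourier
transform of the random integer is smaller than a negative power of `N` at all but a small power of `N` of the
frequencies, and the spectral criterion of the starting file `SparseRandomShifts` applies.

Further definitions used: from the starting file `Pool.Agent.Results.MP_122e00_nt.PowerSavingShifts`: the divisor functions `d`,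
the sums `D`, the Ramanujan sums `ram`, the densities `κ`, the singular series `𝔖`, `Density`, `G`, `main`.
-/

set_option autoImplicit false

namespace Pool.Agent.Results.MP_122e00_nt.DeterminantalShifts

open Finset Polynomial
open Pool.Agent.Results.MP_122e00_nt.PowerSavingShifts (D ram κ 𝔖 Density G main)
open Pool.Agent.Run7.h414.DP (DC DC_sum DC_nonneg DetDigits fam_dc few_det)

/-- For ALL `x ≤ N`: `D_r(x; h)` is the main term up to `N ^ (1 - θ)` and, if `|h| ≤ N ^ (1 - η)`, it is `x T_h(log x)` up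
to `N ^ (1 - θ) + N ^ (1 - η / 4)`. -/
def Asymp (r N : ℕ) (P : ℕ → ℝ[X]) (T : ℤ → ℝ[X]) (θ η : ℝ) (h : ℤ) : Prop := ∀ x : ℕ, x ≤ N →
  |D r x h - main P x h| ≤ (N : ℝ) ^ (1 - θ) ∧
    ((|h| : ℝ) ≤ (N : ℝ) ^ (1 - η) → |D r x h - x * (T h).eval (Real.log x)| ≤ (N : ℝ) ^ (1 - θ) + (N : ℝ) ^ (1 - η / 4))

open Classical in
/-- **Divisor correlations with a power saving for almost all shifts with determinantal digits.** Let
`r ≥ 2`. There are polynomials `P_q` (`q ≥ 1`) and `T_h` (`h ≠ 0`) with the following properties.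

(0) As in the starting files: `P_q` is the density of `d_r(n) e(b n / q)`, `(b, q) = 1`, with a power saving; for `h ≠ 0` the
series `G_h(u, v) = ∑ c_q(h) P_q(u) P_q(v)` satisfies `T_h(u) + T_h'(u) = G_h(u, u)`, and `T_h` has degree `2 r - 2` and
leading coefficient `𝔖_r(h) / ((r - 1)!) ^ 2`.

(1) Let `b ≥ 2`, `L` and `ν > 0`. There is `θ > 0` such that for every integer `μ ≠ 0`, every `B`, every
`0 < η ≤ 1`, every large `k`, every `N` with `b ^ k ≤ N ≤ b ^ ((1 + θ) k)`, EVERY integer `c` with `|c| ≤ B N`, every `t` and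
every `p` which is dominated, up to the factor `k ^ t`, by the distribution of an integer with `k` determinantal digits
(`DetDigits b L ν t k p`), the following holds: up to a `p`-weight of at most `k ^ t N ^ (-θ)` the shift `h = c + μ v` is zero
or satisfies, for ALL `x ≤ N`:
`D_r(x; h) = ∑ G_h(log n, log(n + h)) + O(N ^ (1 - θ))` (the sum over `n ≤ x` with `n + h ≥ 1`) and, if
`|h| ≤ N ^ (1 - η)`, `D_r(x; h) = x T_h(log x) + O(N ^ (1 - θ) + N ^ (1 - η / 4))`, with implied constants `1`. -/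
theorem result (r : ℕ) (hr : 2 ≤ r) : ∃ (P : ℕ → ℝ[X]) (T : ℤ → ℝ[X]),
    (Density r P ∧ ∀ q, 1 ≤ q → (P q).natDegree = r - 1 ∧ (P q).leadingCoeff = κ (r - 1) q / ((r - 1).factorial : ℝ)) ∧
    (∀ h : ℤ, h ≠ 0 → (∀ u v : ℝ, Summable (fun q : ℕ => (ram (q + 1) h : ℝ) * ((P (q + 1)).eval u * (P (q + 1)).eval v))) ∧
      (∀ u : ℝ, (T h).eval u + (derivative (T h)).eval u = G P h u u) ∧
      (T h).natDegree = 2 * r - 2 ∧ (T h).leadingCoeff = 𝔖 r h / ((r - 1).factorial : ℝ) ^ 2) ∧
    ∀ b L : ℕ, 2 ≤ b → ∀ ν : ℝ, 0 < ν →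
      ∃ θ : ℝ, 0 < θ ∧ ∀ μ : ℤ, μ ≠ 0 → ∀ (B : ℕ) (η : ℝ), 0 < η → η ≤ 1 →
        ∃ k₀ : ℕ, ∀ k : ℕ, k₀ ≤ k → ∀ N : ℕ, b ^ k ≤ N → (N : ℝ) ≤ (b : ℝ) ^ ((1 + θ) * k) → ∀ c : ℤ, |c| ≤ B * N →
          ∀ (t : ℕ) (p : ℕ → ℝ), DetDigits b L ν t k p →
            ∑ v ∈ range (b ^ k), (if c + μ * (v : ℕ) = 0 ∨ Asymp r N P T θ η (c + μ * (v : ℕ)) then 0 else p v) ≤
              (k : ℝ) ^ t * (N : ℝ) ^ (-θ) := by
  classical
  obtain ⟨P, T, h0, h1, ⟨θc, hθc, C', hcrit⟩, -, -⟩ := Pool.Agent.Results.MP_122e00_nt.SparseRandomShifts.result r hr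
  refine ⟨P, T, ⟨h0.1, h0.2.1⟩, h1, fun b L hb ν hν => ?_⟩
  obtain ⟨θ1, hθ1, hθ11, hf1⟩ := few_det b L hb ν hν θc hθc
  obtain ⟨θ₃, hθ₃⟩ : ∃ θ₃, θ₃ = min θc θ1 := ⟨_, rfl⟩
  have hθ₃0 : 0 < θ₃ := by rw [hθ₃]; exact lt_min hθc hθ1
  have hθ₃c : θ₃ ≤ θc := by rw [hθ₃]; exact min_le_left _ _
  have hθ₃1 : θ₃ ≤ θ1 := by rw [hθ₃]; exact min_le_right _ _
  refine ⟨θ₃ / 16, by positivity, fun μ hμ B₀ η hη hη1 => ?_⟩
  obtain ⟨k1, hk1⟩ := hf1 μ hμ
  obtain ⟨N₀, hN₀⟩ := Pool.Agent.R501.SP.crit_pow r P T θc C' hcrit θ₃ hθ₃0 hθ₃c (B₀ + μ.natAbs) η hη hη1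
  refine ⟨k1 + N₀ + 1, fun k hk N hN1 hN2 c hc t p hp => ?_⟩
  obtain ⟨p', hp', hpp'⟩ := fam_dc hp
  have hkN : k ≤ N := (Nat.lt_pow_self (by omega)).le.trans hN1
  have hNr : (1 : ℝ) ≤ N := by exact_mod_cast (by omega : 1 ≤ N)
  have hbr : (1 : ℝ) ≤ b := by exact_mod_cast (by omega : 1 ≤ b)
  have hN2' : (N : ℝ) ≤ (b : ℝ) ^ ((1 + θ1) * k) := by
    refine hN2.trans (Real.rpow_le_rpow_of_exponent_le hbr ?_)
    apply mul_le_mul_of_nonneg_right _ (Nat.cast_nonneg _)
    linarith
  have h3 := hk1 k (by omega) N hN1 hN2' p' hp' c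
  have hfew := Pool.Agent.R501.SP.few_mono _ _ N _ _ _ (Real.rpow_le_rpow_of_exponent_le hNr (by linarith : -θ1 ≤ -θ₃)) h3
  have key := hN₀ N (by omega) {v // v ∈ range (b ^ k)} (fun v => p' v.1) (fun v => c + μ * (v.1 : ℕ)) (fun v => DC_nonneg hp' _)
    (by rw [Finset.sum_coe_sort (range (b ^ k)) p']; exact DC_sum hp') (by
      intro v
      have h4 : v.1 < b ^ k := mem_range.1 v.2
      have h6 : ((v.1 : ℕ) : ℤ) ≤ N := by exact_mod_cast h4.le.trans hN1
      calc |c + μ * (v.1 : ℕ)| ≤ |c| + |μ * (v.1 : ℕ)| := abs_add_le _ _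
        _ = |c| + |μ| * (v.1 : ℕ) := by rw [abs_mul, abs_of_nonneg (Int.natCast_nonneg _)]
        _ ≤ B₀ * N + |μ| * N := add_le_add hc (mul_le_mul_of_nonneg_left h6 (abs_nonneg _))
        _ = _ := by push_cast; ring) hfew
  have hk0 : (0 : ℝ) ≤ (k : ℝ) ^ t := by positivity
  refine le_trans ?_ (mul_le_mul_of_nonneg_left key hk0)
  rw [sum_filter, Finset.sum_coe_sort (range (b ^ k)) (fun v : ℕ => if c + μ * (v : ℕ) ≠ 0 ∧
    ¬ Pool.Agent.Results.MP_122e00_nt.SparseRandomShifts.Asymp r N P T ((N : ℝ) ^ (1 - θ₃ / 16)) η (c + μ * (v : ℕ)) then p' v else 0),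
    mul_sum]
  apply sum_le_sum
  intro v _
  by_cases h : c + μ * (v : ℕ) = 0 ∨ Asymp r N P T (θ₃ / 16) η (c + μ * (v : ℕ))
  · rw [if_pos h]
    apply mul_nonneg hk0
    split_ifs
    · exact DC_nonneg hp' _
    · exact le_rfl
  · rw [if_neg h]
    push Not at h
    rw [if_pos ⟨h.1, fun hg => h.2 hg⟩]
    exact (hpp' v).2

end Pool.Agent.Results.MP_122e00_nt.DeterminantalShifts
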