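import Pool.Agent.Run7.h582.FM.Es5
import Pool.Agent.R501.SP3

/-!
# Correlations of the divisor functions with a power saving for ALL the shifts in intervals around `lam n * x + c n`, for almost
every `x` with respect to every measure with polynomial Fourier decay

Definitions used: from the starting file `Pool.Agent.Results.MP_122e00_nt.PowerSavingShifts`: the divisor functions `d`,
the sums `D`, the Ramanujan sums `ram`, the densities `κ`, the singular series `𝔖`, `Density`, `G`, `main`.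

Let `N n ≥ exp (n ^ ζ)` and let `lam n`, `c n` be real numbers with `N n / log ^ T (N n) ≤ lam n ≤ B N n` and
`|c n| ≤ B N n`. The theorem is about ALL the shifts `h` in the interval with the centre `lam n * x + c n` and the length
`2 (N n) ^ θ`, for all large `n`, for almost every `x` with respect to EVERY finite Borel measure `μ` with bounded support whose
Fourier transform is `O (|ξ| ^ (-δ))` for some `δ > 0` (such measures can live on sets of an arbitrarily small positive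
Hausdorff dimension).

Method: a measure with polynomial Fourier decay is replaced by finite families of real numbers with the same exponential
sums (`Pool.Agent.Run7.h582.FM`); the characteristic functions of the integer parts of the members decay like a power of the
distance to the integers. So they are larger than a small negative power of `N` only near the integers, and the spectral
criterion of the starting file `SparseRandomShifts` applies; then the lemma of Borel and Cantelli is used.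
-/

set_option autoImplicit false
set_option maxHeartbeats 4000000

namespace Pool.Agent.Results.MP_122e00_nt.FourierDecayShifts

open Finset Filter Polynomial MeasureTheory
open Pool.Agent.Results.MP_122e00_nt.PowerSavingShifts (D ram κ 𝔖 Density G main)

/-- `N n ≥ exp (n ^ ζ)`, `|c n| ≤ B N n` and `N n / log ^ T (N n) ≤ lam n ≤ B N n` for large `n`. -/
def Scales (ζ : ℝ) (B T : ℕ) (N : ℕ → ℕ) (lam c : ℕ → ℝ) : Prop :=
  ∀ᶠ n : ℕ in atTop, Real.exp ((n : ℝ) ^ ζ) ≤ N n ∧ |c n| ≤ B * N n ∧ lam n ≤ B * N n ∧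
    (N n : ℝ) ≤ lam n * Real.log (N n) ^ T

/-- `μ` is a finite Borel measure with bounded support and its Fourier transform `ξ ↦ ∫ exp (i ξ t) dμ (t)` is
`O (|ξ| ^ (-δ))` for some `δ > 0`. -/
def FourierDecay (μ : Measure ℝ) : Prop :=
  IsFiniteMeasure μ ∧ (∃ R : ℝ, μ (Set.Icc (-R) R)ᶜ = 0) ∧ ∃ C δ : ℝ, 0 < δ ∧ ∀ ξ : ℝ, ξ ≠ 0 →
    ‖∫ t : ℝ, Complex.exp (((ξ * t : ℝ) : ℂ) * Complex.I) ∂μ‖ ≤ C * |ξ| ^ (-δ)

/-- For ALL `x ≤ N`: `D_r(x; h)` is the main term up to `N ^ (1 - θ)` and, if `|h| ≤ N ^ (1 - η)`, it is `x T_h(log x)` up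
to `N ^ (1 - θ) + N ^ (1 - η / 4)`. -/
def Asymp (r N : ℕ) (P : ℕ → ℝ[X]) (T : ℤ → ℝ[X]) (θ η : ℝ) (h : ℤ) : Prop := ∀ x : ℕ, x ≤ N →
  |D r x h - main P x h| ≤ (N : ℝ) ^ (1 - θ) ∧
    ((|h| : ℝ) ≤ (N : ℝ) ^ (1 - η) → |D r x h - x * (T h).eval (Real.log x)| ≤ (N : ℝ) ^ (1 - θ) + (N : ℝ) ^ (1 - η / 4))

/-- Let `r ≥ 2`. There are polynomials `P_q` (`q ≥ 1`) and `T_h` (`h ≠ 0`) with the following properties.

**(0)** As in the starting file: `P_q` is the density of `d_r(n) e(b n / q)`, `(b, q) = 1`, with a power saving; for `h ≠ 0`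
the series `G_h(u, v) = ∑ c_q(h) P_q(u) P_q(v)` converges absolutely, `y T_h(log y)` has the derivative
`G_h(log y, log y)`, and `T_h` has degree `2 r - 2` and leading coefficient `𝔖_r(h) / ((r - 1)!) ^ 2`.

**(1)** Let `μ` be a measure with `FourierDecay`. There is `θ > 0` such that for all sequences with `Scales ζ B T N lam c`, all
`0 < η ≤ 1` and `μ`-almost every `t`, for all large `n`: EVERY integer `h ≠ 0` at a distance of at most `(N n) ^ θ` from
`lam n * t + c n` satisfies, with `N = N n`, for ALL `x ≤ N`: the sum `D_r(x; h)` of `d_r(m) d_r(m + h)`, `m ≤ x`, `m + h ≥ 1`,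
is its main term up to `N ^ (1 - θ)` and, if `|h| ≤ N ^ (1 - η)`, it is `x T_h(log x)` up to `N ^ (1 - θ) + N ^ (1 - η / 4)`. -/
theorem result (r : ℕ) (hr : 2 ≤ r) : ∃ (P : ℕ → ℝ[X]) (T : ℤ → ℝ[X]),
    (Density r P ∧ ∀ q, 1 ≤ q → (P q).natDegree = r - 1 ∧ (P q).leadingCoeff = κ (r - 1) q / ((r - 1).factorial : ℝ)) ∧
    (∀ h : ℤ, h ≠ 0 → (∀ u v : ℝ, Summable (fun q : ℕ => (ram (q + 1) h : ℝ) * ((P (q + 1)).eval u * (P (q + 1)).eval v))) ∧
      (∀ u : ℝ, (T h).eval u + (derivative (T h)).eval u = G P h u u) ∧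
      (T h).natDegree = 2 * r - 2 ∧ (T h).leadingCoeff = 𝔖 r h / ((r - 1).factorial : ℝ) ^ 2) ∧
    (∀ μ : Measure ℝ, FourierDecay μ → ∃ θ : ℝ, 0 < θ ∧ ∀ ζ : ℝ, 0 < ζ → ∀ (B T₀ : ℕ) (N : ℕ → ℕ) (lam c : ℕ → ℝ),
      Scales ζ B T₀ N lam c → ∀ η : ℝ, 0 < η → η ≤ 1 →
      ∀ᵐ t ∂μ, ∀ᶠ n : ℕ in atTop, ∀ h : ℤ, h ≠ 0 → |(h : ℝ) - (lam n * t + c n)| ≤ (N n : ℝ) ^ θ →
        Asymp r (N n) P T θ η h) := by
  classical
  obtain ⟨P, T, h0, h1, ⟨θc, hθc, C', hcrit⟩, -, -⟩ := Pool.Agent.Results.MP_122e00_nt.SparseRandomShifts.result r hr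
  refine ⟨P, T, ⟨h0.1, h0.2.1⟩, h1, fun μ hμ => ?_⟩
  obtain ⟨A, hA1, H⟩ := Pool.Agent.Run7.h582.FM.ae_pow Pool.Agent.Run7.h582.FM.CH Pool.Agent.Run7.h582.FM.hasCls_ch μ hμ
  have hA0 : (1 : ℝ) ≤ A := by exact_mod_cast hA1
  obtain ⟨θ₃, hθ₃⟩ : ∃ θ₃, θ₃ = min 1 (θc / (2 * A)) := ⟨_, rfl⟩
  have hθ₃0 : 0 < θ₃ := by rw [hθ₃]; exact lt_min one_pos (by positivity)
  have hθ₃1 : θ₃ ≤ 1 := by rw [hθ₃]; exact min_le_left _ _
  have hθ₃c : A * θ₃ ≤ θc / 2 := by
    have : θ₃ ≤ θc / (2 * A) := by rw [hθ₃]; exact min_le_right _ _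
    rw [le_div_iff₀ (by positivity)] at this
    linarith
  have hθ₃c' : θ₃ ≤ θc := by nlinarith
  refine ⟨θ₃ / 32, by positivity, fun ζ hζ B T₀ N lam c hS η hη hη1 => ?_⟩
  obtain ⟨B', hB'⟩ := H B
  obtain ⟨N₀, hN₀⟩ := Pool.Agent.R501.SP.crit_pow r P T θc C' hcrit θ₃ hθ₃0 hθ₃c' B' η hη hη1
  have hNt : Tendsto N atTop atTop := by
    have h1 : Tendsto (fun n : ℕ => Real.exp ((n : ℝ) ^ ζ)) atTop atTop :=
      Real.tendsto_exp_atTop.comp ((tendsto_rpow_atTop hζ).comp tendsto_natCast_atTop_atTop)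
    exact tendsto_natCast_atTop_iff.1 (tendsto_atTop_mono' _ (hS.mono fun n hn => hn.1) h1)
  have key := hB' (θ₃ / 16) ζ (by positivity) (by linarith) hζ T₀ N lam c hS
    (fun n h => h = 0 ∨ Asymp r (N n) P T (θ₃ / 16) η h) (by
    filter_upwards [hNt.eventually (Pool.Agent.Run7.h582.FM.few_of_ch A T₀ θc θ₃ hθ₃0 hθ₃c hθc),
      hNt.eventually_ge_atTop (N₀ + 1)] with n hn hnN k hk τ S w hS0 hw hch
    have hcard : (0 : ℝ) < S.card := by exact_mod_cast hS0.card_pos
    have hfew := hn k hk τ S w hS0 hch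
    have key := hN₀ (N n) (by omega) {i // i ∈ S} (fun _ => 1 / (S.card : ℝ)) (fun i => w i.1) (fun _ => by positivity)
      (by
        rw [Finset.sum_const, Finset.card_univ, Fintype.card_coe, nsmul_eq_mul]
        field_simp) (by
        intro i
        have := hw i.1 i.2
        exact_mod_cast this) hfew
    rw [sum_filter, Finset.sum_coe_sort S (fun i => if w i ≠ 0 ∧
      ¬ Pool.Agent.Results.MP_122e00_nt.SparseRandomShifts.Asymp r (N n) P T ((N n : ℝ) ^ (1 - θ₃ / 16)) η (w i)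
        then 1 / (S.card : ℝ) else 0)] at key
    have hle : ((S.filter fun i => ¬ (w i = 0 ∨ Asymp r (N n) P T (θ₃ / 16) η (w i))).card : ℝ) * (1 / (S.card : ℝ)) ≤
        (N n : ℝ) ^ (-(θ₃ / 16)) := by
      refine le_trans ?_ key
      rw [← nsmul_eq_mul, ← sum_const, sum_filter]
      apply sum_le_sum
      intro i _
      by_cases h : w i = 0 ∨ Asymp r (N n) P T (θ₃ / 16) η (w i)
      · rw [if_neg (not_not.2 h)]
        split_ifs
        · positivity
        · exact le_rfl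
      · rw [if_pos h]
        push Not at h
        rw [if_pos ⟨h.1, fun hg => h.2 hg⟩]
    rw [mul_one_div, div_le_iff₀ hcard, mul_comm] at hle
    refine le_trans (le_of_eq ?_) hle
    congr!)
  filter_upwards [key] with t ht
  filter_upwards [ht, hNt.eventually_ge_atTop 1] with n hn hN1 h hh0 hh
  have hNr : (1 : ℝ) ≤ N n := by exact_mod_cast hN1
  have h2 : |(h : ℝ) - (lam n * t + c n)| ≤ (N n : ℝ) ^ (θ₃ / 16 / 2) := by
    refine hh.trans (Real.rpow_le_rpow_of_exponent_le hNr (by linarith))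
  rcases hn h h2 with h3 | h3
  · exact absurd h3 hh0
  · intro x hx
    obtain ⟨h4, h5⟩ := h3 x hx
    have h6 : (N n : ℝ) ^ (1 - θ₃ / 16) ≤ (N n : ℝ) ^ (1 - θ₃ / 32) := Real.rpow_le_rpow_of_exponent_le hNr (by linarith)
    exact ⟨h4.trans h6, fun h7 => (h5 h7).trans (add_le_add h6 le_rfl)⟩

end Pool.Agent.Results.MP_122e00_nt.FourierDecayShifts
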