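import Pool.Agent.Run7.h710.TR.Few
import Pool.Agent.Run7.h710.TR.Cnt

/-!
# Correlations of the divisor functions with a power saving, for almost all shifts written by a transducer

The integers `v < a ^ k` are arbitrary, up to few exceptions; the transducer `T` reads the digits of `v` in base `a` and
writes the digits of `T(v)` in base `b` (definitions in `Pool.Agent.Run7.h710.TR.Defs`).

Definitions used: from the starting file `Pool.Agent.Results.MP_122e00_nt.PowerSavingShifts`: the divisor functions `d`,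
the sums `D`, the Ramanujan sums `ram`, the densities `κ`, the singular series `𝔖`, `Density`, `G`, `main`.

Method: if two words of `L` digits lead from the same state to the same state and different words are written, then the two
parts of the exponential sum over the integers `T(v)` which belong to these words cancel in part at the places where the
frequency is far from the integers. So the Fourier transform of the random integer is smaller than a negative power of `N` at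
all but a small power of `N` of the frequencies, and the spectral criterion of the starting file `SparseRandomShifts` applies. 

Examples: the bitwise conjunction or disjunction of `v` and `m v` (the carries are the states); the integer whose digit `i`
is `f(x_i, x_{i+1}, …, x_{i+r})`, where `x_i` are the digits of `v` and `f` is not constant (one-sided cellular automata).
-/

set_option autoImplicit false

namespace Pool.Agent.Results.MP_122e00_nt.TransducerShifts

open Finset Polynomial Pool.Agent.Run7.h710.TR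
open Pool.Agent.Results.MP_122e00_nt.PowerSavingShifts (D ram κ 𝔖 Density G main)

/-- For ALL `x ≤ N`: `D_r(x; h)` is the main term up to `N ^ (1 - θ)` and, if `|h| ≤ N ^ (1 - η)`, it is `x T_h(log x)` up
to `N ^ (1 - θ) + N ^ (1 - η / 4)`. -/
def Asymp (r N : ℕ) (P : ℕ → ℝ[X]) (T : ℤ → ℝ[X]) (θ η : ℝ) (h : ℤ) : Prop := ∀ x : ℕ, x ≤ N →
  |D r x h - main P x h| ≤ (N : ℝ) ^ (1 - θ) ∧
    ((|h| : ℝ) ≤ (N : ℝ) ^ (1 - η) → |D r x h - x * (T h).eval (Real.log x)| ≤ (N : ℝ) ^ (1 - θ) + (N : ℝ) ^ (1 - η / 4))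

open Classical in
/-- **Divisor correlations with a power saving for almost all shifts `c + μ T(v)`.** Let
`r ≥ 2`. There are polynomials `P_q` (`q ≥ 1`) and `T_h` (`h ≠ 0`) with the following properties.

(0) As in the starting files: `P_q` is the density of `d_r(n) e(b n / q)`, `(b, q) = 1`, with a power saving; for `h ≠ 0` the
series `G_h(u, v) = ∑ c_q(h) P_q(u) P_q(v)` satisfies `T_h(u) + T_h'(u) = G_h(u, u)`, and `T_h` has degree `2 r - 2` and
leading coefficient `𝔖_r(h) / ((r - 1)!) ^ 2`.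

(1) Let `a`, `b ≥ 2` and `L ≥ 1`. There is `θ > 0` such that for every integer `μ ≠ 0`, every `B`, every
`0 < η ≤ 1`, every large `k`, every `N` with `b ^ k ≤ N ≤ b ^ ((1 + θ) k)`, EVERY integer `c` with `|c| ≤ B N` and EVERY
transducer `T` (with finitely or infinitely many states) which reads digits `< a` and writes digits `< b` such that from every
state two words of `L` digits lead to the same state, while different words are written, which begins in an arbitrary state and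
reads from the left or from the right, the following holds: for all the `v < a ^ k`, with at most `a ^ k N ^ (-θ)` exceptions,
the shift `h = c + μ T(v)` is zero or satisfies, for ALL `x ≤ N`:
`D_r(x; h) = ∑ G_h(log n, log(n + h)) + O(N ^ (1 - θ))` (the sum over `n ≤ x` with `n + h ≥ 1`) and, if
`|h| ≤ N ^ (1 - η)`, `D_r(x; h) = x T_h(log x) + O(N ^ (1 - θ) + N ^ (1 - η / 4))`, with implied constants `1`. -/
theorem result (r : ℕ) (hr : 2 ≤ r) : ∃ (P : ℕ → ℝ[X]) (T : ℤ → ℝ[X]),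
    (Density r P ∧ ∀ q, 1 ≤ q → (P q).natDegree = r - 1 ∧ (P q).leadingCoeff = κ (r - 1) q / ((r - 1).factorial : ℝ)) ∧
    (∀ h : ℤ, h ≠ 0 → (∀ u v : ℝ, Summable (fun q : ℕ => (ram (q + 1) h : ℝ) * ((P (q + 1)).eval u * (P (q + 1)).eval v))) ∧
      (∀ u : ℝ, (T h).eval u + (derivative (T h)).eval u = G P h u u) ∧
      (T h).natDegree = 2 * r - 2 ∧ (T h).leadingCoeff = 𝔖 r h / ((r - 1).factorial : ℝ) ^ 2) ∧
    ∀ a b L : ℕ, 2 ≤ b → 1 ≤ L → ∃ θ : ℝ, 0 < θ ∧ ∀ (μ : ℤ), μ ≠ 0 → ∀ (B : ℕ) (η : ℝ), 0 < η → η ≤ 1 →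
      ∃ k₀ : ℕ, ∀ k : ℕ, k₀ ≤ k → ∀ N : ℕ, b ^ k ≤ N → (N : ℝ) ≤ (b : ℝ) ^ ((1 + θ) * k) → ∀ c : ℤ, |c| ≤ B * N →
        ∀ (S : Type) (δ : S → ℕ → S) (o : S → ℕ → ℕ), Transducer a b L δ o → ∀ (left : Bool) (s : S),
          (((range (a ^ k)).filter fun v => ¬ (c + μ * (image a b δ o left k s v : ℕ) = 0 ∨
            Asymp r N P T θ η (c + μ * (image a b δ o left k s v : ℕ)))).card : ℝ) ≤ (a : ℝ) ^ k * (N : ℝ) ^ (-θ) := by
  classical
  obtain ⟨P, T, h0, h1, ⟨θc, hθc, C', hcrit⟩, -, -⟩ := Pool.Agent.Results.MP_122e00_nt.SparseRandomShifts.result r hr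
  refine ⟨P, T, ⟨h0.1, h0.2.1⟩, h1, fun a b L hb hL => ?_⟩
  obtain ⟨θ1, hθ1, hθ11, hf1⟩ := d_few (tr_dcls a b L hb hL) θc hθc
  obtain ⟨θ₃, hθ₃⟩ : ∃ θ₃, θ₃ = min θc θ1 := ⟨_, rfl⟩
  have hθ₃0 : 0 < θ₃ := by rw [hθ₃]; exact lt_min hθc hθ1
  have hθ₃c : θ₃ ≤ θc := by rw [hθ₃]; exact min_le_left _ _
  have hθ₃1 : θ₃ ≤ θ1 := by rw [hθ₃]; exact min_le_right _ _
  refine ⟨θ₃ / 16, by positivity, fun μ hμ B₀ η hη hη1 => ?_⟩
  obtain ⟨k1, hk1⟩ := hf1 μ hμ
  obtain ⟨N₀, hN₀⟩ := Pool.Agent.R501.SP.crit_pow r P T θc C' hcrit θ₃ hθ₃0 hθ₃c (B₀ + μ.natAbs) η hη hη1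
  refine ⟨k1 + N₀ + 1, fun k hk N hN1 hN2 c hc S δ o hT left s => ?_⟩
  have hkN : k ≤ N := (Nat.lt_pow_self (by omega)).le.trans hN1
  have hNr : (1 : ℝ) ≤ N := by exact_mod_cast (by omega : 1 ≤ N)
  have hbr : (1 : ℝ) ≤ b := by exact_mod_cast (by omega : 1 ≤ b)
  have hN2' : (N : ℝ) ≤ (b : ℝ) ^ ((1 + θ1) * k) := by
    refine hN2.trans (Real.rpow_le_rpow_of_exponent_le hbr ?_)
    apply mul_le_mul_of_nonneg_right _ (Nat.cast_nonneg _)
    linarith
  obtain ⟨p, hp⟩ : ∃ p, p = law a b δ o left k s := ⟨_, rfl⟩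
  have hp0 : ∀ v, 0 ≤ p v := by rw [hp]; exact law_nonneg left k s
  have hp1 : ∑ v ∈ range (b ^ k), p v = 1 := by rw [hp]; exact law_sum hb hT left k s
  have h3 := hk1 k (by omega) N hN1 hN2' p ⟨S, δ, o, left, s, hT, hp⟩ c
  have hfew := Pool.Agent.R501.SP.few_mono _ _ N _ _ _ (Real.rpow_le_rpow_of_exponent_le hNr (by linarith : -θ1 ≤ -θ₃)) h3
  have key := hN₀ N (by omega) {v // v ∈ range (b ^ k)} (fun v => p v.1) (fun v => c + μ * (v.1 : ℕ)) (fun v => hp0 _)
    (by rw [Finset.sum_coe_sort (range (b ^ k)) p]; exact hp1) (by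
      intro v
      have h4 : v.1 < b ^ k := mem_range.1 v.2
      have h6 : ((v.1 : ℕ) : ℤ) ≤ N := by exact_mod_cast h4.le.trans hN1
      calc |c + μ * (v.1 : ℕ)| ≤ |c| + |μ * (v.1 : ℕ)| := abs_add_le _ _
        _ = |c| + |μ| * (v.1 : ℕ) := by rw [abs_mul, abs_of_nonneg (Int.natCast_nonneg _)]
        _ ≤ B₀ * N + |μ| * N := add_le_add hc (mul_le_mul_of_nonneg_left h6 (abs_nonneg _))
        _ = _ := by push_cast; ring) hfew
  have h5 : ∑ v ∈ range (b ^ k), (if c + μ * (v : ℕ) = 0 ∨ Asymp r N P T (θ₃ / 16) η (c + μ * (v : ℕ)) then 0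
      else law a b δ o left k s v) ≤ (N : ℝ) ^ (-(θ₃ / 16)) := by
    rw [← hp]
    refine le_trans ?_ key
    rw [sum_filter, Finset.sum_coe_sort (range (b ^ k)) (fun v : ℕ => if c + μ * (v : ℕ) ≠ 0 ∧
      ¬ Pool.Agent.Results.MP_122e00_nt.SparseRandomShifts.Asymp r N P T ((N : ℝ) ^ (1 - θ₃ / 16)) η (c + μ * (v : ℕ)) then p v else 0)]
    apply sum_le_sum
    intro v _
    by_cases h : c + μ * (v : ℕ) = 0 ∨ Asymp r N P T (θ₃ / 16) η (c + μ * (v : ℕ))
    · rw [if_pos h]
      split_ifs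
      · exact hp0 _
      · exact le_rfl
    · rw [if_neg h]
      push Not at h
      rw [if_pos ⟨h.1, fun hg => h.2 hg⟩]
  have h6 := count_of hb hT left k s (fun v => c + μ * (v : ℕ) = 0 ∨ Asymp r N P T (θ₃ / 16) η (c + μ * (v : ℕ)))
    ((N : ℝ) ^ (-(θ₃ / 16))) (by convert h5)
  have h7 : (a : ℝ) ^ k * (N : ℝ) ^ (-(θ₃ / 16)) = (N : ℝ) ^ (-(θ₃ / 16)) * ((a ^ k : ℕ) : ℝ) := by
    push_cast
    ring
  rw [h7]
  convert h6

end Pool.Agent.Results.MP_122e00_nt.TransducerShifts
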