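import Pool.Agent.Run7.h844.RP.PwN
import Pool.Agent.Run7.h844.RP.PwPu
import Pool.Agent.R501.SP3

/-!
# Correlations of the divisor functions with a power saving, for almost all shifts among the values of generalised polynomials
at primes

Definitions used: from the starting file `Pool.Agent.Results.MP_122e00_nt.PowerSavingShifts`: the divisor functions `d`,
the sums `D`, the Ramanujan sums `ram`, the densities `κ`, the singular series `𝔖`, `Density`, `G`, `main`.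

Method: exponential sums over primes with the phase of a generalised polynomial: derivative bounds uniform in the
coefficients, van der Corput differencing of all orders, bilinear sums, Vaughan's identity (after `Pool.Agent.H895R3.NK`,
`Pool.Agent.H373R2.T7`), with a power saving at all frequencies up to a power, and a discrete Fejér kernel for the passage to
the integer parts (library `Pool.Agent.Run7.h844.RP`). The characteristic function of the values is larger than a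
small negative power only near few fractions, and the spectral criterion of the starting file `SparseRandomShifts` applies.
-/

set_option autoImplicit false

namespace Pool.Agent.Results.MP_122e00_nt.ValuesAtPrimes

open Finset Filter Polynomial
open Pool.Agent.Results.MP_122e00_nt.PowerSavingShifts (D ram κ 𝔖 Density G main)

/-- The generalised polynomial `∑ a x * t ^ x`, `x ∈ F`, with real exponents and coefficients. -/
noncomputable def genPoly (F : Finset ℝ) (a : ℝ → ℝ) (t : ℝ) : ℝ := ∑ x ∈ F, a x * t ^ x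

/-- `c` is the largest exponent; it is positive and not an integer, and its coefficient is not zero. -/
def Leading (F : Finset ℝ) (a : ℝ → ℝ) (c : ℝ) : Prop :=
  c ∈ F ∧ (∀ x ∈ F, x ≤ c) ∧ 0 < c ∧ (∀ m : ℕ, c ≠ m) ∧ a c ≠ 0

/-- For ALL `x ≤ B Y`: `D_r(x; h)` is the main term up to `E` and, if `|h| ≤ Y ^ (1 - η)`, it is `x T_h(log x)` up to
`E + Y ^ (1 - η / 5)`. -/
def Asymp (r B : ℕ) (P : ℕ → ℝ[X]) (T : ℤ → ℝ[X]) (Y E η : ℝ) (h : ℤ) : Prop := ∀ x : ℕ, (x : ℝ) ≤ B * Y →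
  |D r x h - main P x h| ≤ E ∧
    ((|h| : ℝ) ≤ Y ^ (1 - η) → |D r x h - x * (T h).eval (Real.log x)| ≤ E + Y ^ (1 - η / 5))

open Classical in
/-- Let `r ≥ 2`. There are polynomials `P_q` (`q ≥ 1`) and `T_h` (`h ≠ 0`) with the following properties.

**(0)** As in the starting file: `P_q` is the density of `d_r(n) e(b n / q)`, `(b, q) = 1`, with a power saving; for `h ≠ 0`
the series `G_h(u, v) = ∑ c_q(h) P_q(u) P_q(v)` converges absolutely, `y T_h(log y)` has the derivative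
`G_h(log y, log y)`, and `T_h` has degree `2 r - 2` and leading coefficient `𝔖_r(h) / ((r - 1)!) ^ 2`.

**(1)** Let `g(t) = ∑ b x t ^ x` be a generalised polynomial whose largest exponent `c` is positive and not an integer. There
is `θ > 0` such that for all `μ ≠ 0`, `B` and `0 < η ≤ 1` the following holds. Let `X` be large, and let `z` be a real number
and `c₀` an integer with `|z|, |c₀| ≤ B X ^ c`. For all the primes `X < q ≤ 2 X`, with at most `X ^ (1 - θ)` exceptions, the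
shift `h = c₀ + μ ⌊g(q) + z⌋` is `0` or satisfies for ALL `x ≤ B X ^ c`: the sum `D_r(x; h)` of `d_r(m) d_r(m + h)`, `m ≤ x`,
`m + h ≥ 1`, is its main term up to `X ^ (c - θ)` and, if `|h| ≤ (X ^ c) ^ (1 - η)`, it is `x T_h(log x)` up to
`X ^ (c - θ) + (X ^ c) ^ (1 - η / 5)`. -/
theorem result (r : ℕ) (hr : 2 ≤ r) : ∃ (P : ℕ → ℝ[X]) (T : ℤ → ℝ[X]),
    (Density r P ∧ ∀ q, 1 ≤ q → (P q).natDegree = r - 1 ∧ (P q).leadingCoeff = κ (r - 1) q / ((r - 1).factorial : ℝ)) ∧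
    (∀ h : ℤ, h ≠ 0 → (∀ u v : ℝ, Summable (fun q : ℕ => (ram (q + 1) h : ℝ) * ((P (q + 1)).eval u * (P (q + 1)).eval v))) ∧
      (∀ u : ℝ, (T h).eval u + (derivative (T h)).eval u = G P h u u) ∧
      (T h).natDegree = 2 * r - 2 ∧ (T h).leadingCoeff = 𝔖 r h / ((r - 1).factorial : ℝ) ^ 2) ∧
    (∀ (F : Finset ℝ) (b : ℝ → ℝ) (c : ℝ), Leading F b c →
      ∃ θ : ℝ, 0 < θ ∧ ∀ μ : ℤ, μ ≠ 0 → ∀ (B : ℕ) (η : ℝ), 0 < η → η ≤ 1 → ∃ X₀ : ℕ, ∀ X : ℕ, X₀ ≤ X →
      ∀ (z : ℝ) (c₀ : ℤ), |z| ≤ B * (X : ℝ) ^ c → |(c₀ : ℝ)| ≤ B * (X : ℝ) ^ c →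
        (((Ioc X (2 * X)).filter fun q : ℕ => q.Prime ∧ ¬ (c₀ + μ * ⌊genPoly F b q + z⌋ = 0 ∨
          Asymp r B P T ((X : ℝ) ^ c) ((X : ℝ) ^ (c - θ)) η (c₀ + μ * ⌊genPoly F b q + z⌋))).card : ℝ) ≤
          (X : ℝ) ^ (1 - θ)) := by
  classical
  obtain ⟨P, T, h0, h1, ⟨θc, hθc, C', hcrit⟩, -, -⟩ := Pool.Agent.Results.MP_122e00_nt.SparseRandomShifts.result r hr
  refine ⟨P, T, ⟨h0.1, h0.2.1⟩, h1, fun F b c hF => ?_⟩
  obtain ⟨hcF, hmax, hc, hn, hb⟩ := hF
  -- the scale does not influence the exponent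
  obtain ⟨ρ, hρ0, hρ1, hPW⟩ := Pool.Agent.Run7.h844.RP.primes_PWu F c hcF hn hc hmax b hb
  obtain ⟨θ₁, hθ₁0, hθ₁1, hfew⟩ := Pool.Agent.Run7.h844.RP.ip_few 8 ρ hρ0 hρ1 θc hθc
  obtain ⟨θ₃, hθ₃⟩ : ∃ θ₃, θ₃ = min θc θ₁ := ⟨_, rfl⟩
  have hθ₃0 : 0 < θ₃ := by rw [hθ₃]; exact lt_min hθc hθ₁0
  have hθ₃c : θ₃ ≤ θc := by rw [hθ₃]; exact min_le_left _ _
  have hθ₃1 : θ₃ ≤ θ₁ := by rw [hθ₃]; exact min_le_right _ _
  refine ⟨c * θ₃ / 32, by positivity, fun μ hμ B η hη hη1 => ?_⟩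
  obtain ⟨k1, hk1⟩ := hfew μ hμ
  -- the constants
  obtain ⟨A, hA⟩ : ∃ A : ℝ, A = Pool.Agent.Run7.h844.RP.Ac F c b + (B + 1) := ⟨_, rfl⟩
  have hAc := Pool.Agent.Run7.h844.RP.Ac_pos F c b
  have hB0 : (0 : ℝ) ≤ B := Nat.cast_nonneg B
  have hA1 : (B : ℝ) + 1 ≤ A := by rw [hA]; linarith
  have hA0 : 0 < A := by linarith
  obtain ⟨X₁, h2⟩ := hPW A hA0
  obtain ⟨N₀, hN₀⟩ := Pool.Agent.R501.SP.crit_pow r P T θc C' hcrit θ₃ hθ₃0 hθ₃c (1 + 2 * μ.natAbs) η hη hη1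
  have hcT := (tendsto_rpow_atTop hc).comp (tendsto_natCast_atTop_atTop (R := ℝ))
  obtain ⟨X₂, h3⟩ := eventually_atTop.mp (hcT.eventually_ge_atTop ((k1 : ℝ) + N₀ + 1))
  obtain ⟨X₃, h4⟩ := Pool.Agent.Run7.h844.RP.rpow_large (A + 1) (c * θ₃ / 32) (by positivity)
  obtain ⟨X₄, h5⟩ := Pool.Agent.Run7.h844.RP.rpow_large (A + 1) (c * (η / 20)) (by positivity)
  refine ⟨X₁ + X₂ + X₃ + X₄ + 1, fun X hX z c₀ hz hc₀ => ?_⟩
  have hX1 : (1 : ℝ) ≤ X := by exact_mod_cast (by omega : 1 ≤ X)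
  have hX0 : (0 : ℝ) < X := by linarith
  obtain ⟨Y, hY⟩ : ∃ Y : ℝ, Y = (X : ℝ) ^ c := ⟨_, rfl⟩
  have hYk : (k1 : ℝ) + N₀ + 1 ≤ Y := by rw [hY]; exact h3 X (by omega)
  have hk10 : (0 : ℝ) ≤ k1 := Nat.cast_nonneg _
  have hN00 : (0 : ℝ) ≤ N₀ := Nat.cast_nonneg _
  have hY1 : 1 ≤ Y := by linarith
  have hY0 : 0 < Y := by linarith
  obtain ⟨N, hN⟩ : ∃ N : ℕ, N = Pool.Agent.Run7.h844.RP.sc A c X := ⟨_, rfl⟩
  have hN1 : A * Y ≤ N := by rw [hN, hY]; exact Pool.Agent.Run7.h844.RP.sc_ge A c X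
  have hN2 : (N : ℝ) ≤ (A + 1) * Y := by rw [hN, hY]; exact Pool.Agent.Run7.h844.RP.sc_le A c hA0 hc X (by omega)
  have hYN : Y ≤ N := by nlinarith
  have hBN : B * Y ≤ N := by nlinarith
  have hNk : k1 + N₀ + 1 ≤ N := by
    have : ((k1 + N₀ + 1 : ℕ) : ℝ) ≤ N := by push_cast; linarith
    exact_mod_cast this
  have hNr : (1 : ℝ) ≤ N := by linarith
  have hN0 : (0 : ℝ) < N := by linarith
  rw [← hY] at hz hc₀ ⊢
  obtain ⟨s, hs⟩ : ∃ s, s = (Ioc X (2 * X)).filter Nat.Prime := ⟨_, rfl⟩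
  have hscard : (s.card : ℝ) ≤ X := by rw [hs]; exact Pool.Agent.Run7.h844.RP.card_le_X X
  obtain ⟨v, hv⟩ : ∃ v : ℕ → ℤ, v = fun q : ℕ => c₀ + μ * ⌊genPoly F b q + z⌋ := ⟨_, rfl⟩
  -- the errors
  have herr : (N : ℝ) ^ (1 - θ₃ / 16) ≤ (X : ℝ) ^ (c - c * θ₃ / 32) := by
    calc (N : ℝ) ^ (1 - θ₃ / 16) ≤ ((A + 1) * Y) ^ (1 - θ₃ / 16) := Real.rpow_le_rpow hN0.le hN2 (by linarith)
      _ = (A + 1) ^ (1 - θ₃ / 16) * Y ^ (1 - θ₃ / 16) := Real.mul_rpow (by linarith) hY0.le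
      _ ≤ (A + 1) ^ (1 : ℝ) * Y ^ (1 - θ₃ / 16) := by
          apply mul_le_mul_of_nonneg_right _ (by positivity)
          exact Real.rpow_le_rpow_of_exponent_le (by linarith) (by linarith)
      _ = (A + 1) * Y ^ (1 - θ₃ / 16) := by rw [Real.rpow_one]
      _ ≤ (X : ℝ) ^ (c * θ₃ / 32) * Y ^ (1 - θ₃ / 16) := mul_le_mul_of_nonneg_right (h4 X (by omega)) (by positivity)
      _ = (X : ℝ) ^ (c - c * θ₃ / 32) := by
          rw [hY, ← Real.rpow_mul hX0.le, ← Real.rpow_add hX0]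
          congr 1
          ring
  have herr2 : (N : ℝ) ^ (1 - η / 4) ≤ Y ^ (1 - η / 5) := by
    calc (N : ℝ) ^ (1 - η / 4) ≤ ((A + 1) * Y) ^ (1 - η / 4) := Real.rpow_le_rpow hN0.le hN2 (by linarith)
      _ = (A + 1) ^ (1 - η / 4) * Y ^ (1 - η / 4) := Real.mul_rpow (by linarith) hY0.le
      _ ≤ (A + 1) ^ (1 : ℝ) * Y ^ (1 - η / 4) := by
          apply mul_le_mul_of_nonneg_right _ (by positivity)
          exact Real.rpow_le_rpow_of_exponent_le (by linarith) (by linarith)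
      _ = (A + 1) * Y ^ (1 - η / 4) := by rw [Real.rpow_one]
      _ ≤ (X : ℝ) ^ (c * (η / 20)) * Y ^ (1 - η / 4) := mul_le_mul_of_nonneg_right (h5 X (by omega)) (by positivity)
      _ = Y ^ (1 - η / 5) := by
          rw [Real.rpow_mul hX0.le, ← hY, ← Real.rpow_add hY0]
          congr 1
          ring
  have hexc : (N : ℝ) ^ (-(θ₃ / 16)) ≤ (X : ℝ) ^ (-(c * θ₃ / 32)) := by
    calc (N : ℝ) ^ (-(θ₃ / 16)) ≤ Y ^ (-(θ₃ / 16)) := Real.rpow_le_rpow_of_nonpos hY0 hYN (by linarith)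
      _ = (X : ℝ) ^ (-(c * θ₃ / 16)) := by
          rw [hY, ← Real.rpow_mul hX0.le]
          congr 1
          ring
      _ ≤ _ := by
          apply Real.rpow_le_rpow_of_exponent_le hX1
          have : 0 < c * θ₃ := by positivity
          linarith
  have hgoal : ((Ioc X (2 * X)).filter fun q : ℕ => q.Prime ∧ ¬ (c₀ + μ * ⌊genPoly F b q + z⌋ = 0 ∨
          Asymp r B P T Y ((X : ℝ) ^ (c - c * θ₃ / 32)) η (c₀ + μ * ⌊genPoly F b q + z⌋))) =
      s.filter (fun q => ¬ (v q = 0 ∨ Asymp r B P T Y ((X : ℝ) ^ (c - c * θ₃ / 32)) η (v q))) := by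
    rw [hs, filter_filter, hv]
  rw [hgoal]
  rcases s.eq_empty_or_nonempty with hse | hsne
  · rw [hse, filter_empty, card_empty, Nat.cast_zero]
    positivity
  have hs0 : (0 : ℝ) < s.card := by exact_mod_cast hsne.card_pos
  have hPWz := (h2 X (by omega)).shift z
  rw [← hs, ← hN] at hPWz
  have hfew1 := hk1 N (by omega) ℕ s _ hsne hPWz c₀
  have hfew2 := Pool.Agent.R501.SP.few_mono _ _ N _ _ _ (Real.rpow_le_rpow_of_exponent_le hNr (by linarith : -θ₁ ≤ -θ₃)) hfew1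
  have key := hN₀ N (by omega) {n // n ∈ s} (fun _ => 1 / (s.card : ℝ)) (fun n => v n.1) (fun _ => by positivity)
    (by
      rw [Finset.sum_const, Finset.card_univ, Fintype.card_coe, nsmul_eq_mul]
      field_simp) (by
      rintro ⟨n, hn0⟩
      have hnm := hn0
      rw [hs, mem_filter, mem_Ioc] at hnm
      have hsize := Pool.Agent.Run7.h844.RP.ph_size' F c hc hmax b X n (by omega) hnm.1.1 hnm.1.2 (B + 1) (by linarith) z
        (by rw [← hY]; nlinarith)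
      rw [← hY, ← hA] at hsize
      have h6 : |genPoly F b n + z| ≤ N := hsize.trans hN1
      have h7 : |(⌊genPoly F b n + z⌋ : ℤ)| ≤ 2 * N := by
        rw [abs_le] at h6
        have h8 : (⌊genPoly F b n + z⌋ : ℤ) ≤ N := by
          have h9 : ((⌊genPoly F b n + z⌋ : ℤ) : ℝ) ≤ (N : ℝ) := (Int.floor_le _).trans h6.2
          exact_mod_cast h9
        have h10 : -(N : ℤ) ≤ (⌊genPoly F b n + z⌋ : ℤ) := by
          rw [Int.le_floor]
          push_cast
          exact h6.1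
        rw [abs_le]
        constructor <;> linarith
      have h8 : |c₀| ≤ N := by
        have : |(c₀ : ℝ)| ≤ N := hc₀.trans hBN
        exact_mod_cast this
      rw [hv]
      calc |c₀ + μ * ⌊genPoly F b n + z⌋| ≤ |c₀| + |μ * ⌊genPoly F b n + z⌋| := abs_add_le _ _
        _ = |c₀| + |μ| * |⌊genPoly F b n + z⌋| := by rw [abs_mul]
        _ ≤ N + |μ| * (2 * N) := add_le_add h8 (mul_le_mul_of_nonneg_left h7 (abs_nonneg _))
        _ = _ := by push_cast; ring) (by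
      rw [hv]
      exact hfew2)
  have hle : ((s.filter (fun q => ¬ (v q = 0 ∨ Asymp r B P T Y ((X : ℝ) ^ (c - c * θ₃ / 32)) η (v q)))).card : ℝ) *
      (1 / (s.card : ℝ)) ≤ (N : ℝ) ^ (-(θ₃ / 16)) := by
    refine le_trans ?_ key
    rw [sum_filter, Finset.sum_coe_sort s (fun n => if v n ≠ 0 ∧
      ¬ Pool.Agent.Results.MP_122e00_nt.SparseRandomShifts.Asymp r N P T ((N : ℝ) ^ (1 - θ₃ / 16)) η (v n)
      then 1 / (s.card : ℝ) else 0), ← nsmul_eq_mul, ← sum_const, sum_filter]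
    apply sum_le_sum
    intro n _
    by_cases h : v n = 0 ∨ Asymp r B P T Y ((X : ℝ) ^ (c - c * θ₃ / 32)) η (v n)
    · rw [if_neg (not_not.2 h)]
      split_ifs
      · positivity
      · exact le_rfl
    · rw [if_pos h]
      push Not at h
      have hcond : v n ≠ 0 ∧
          ¬ Pool.Agent.Results.MP_122e00_nt.SparseRandomShifts.Asymp r N P T ((N : ℝ) ^ (1 - θ₃ / 16)) η (v n) := by
        refine ⟨h.1, fun hg => h.2 ?_⟩
        intro x hx
        obtain ⟨g1, g2⟩ := hg x (by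
          have : (x : ℝ) ≤ N := hx.trans hBN
          exact_mod_cast this)
        refine ⟨g1.trans herr, fun hh => (g2 ?_).trans (add_le_add herr herr2)⟩
        exact hh.trans (Real.rpow_le_rpow hY0.le hYN (by linarith))
      rw [if_pos hcond]
  rw [mul_one_div, div_le_iff₀ hs0] at hle
  refine hle.trans ?_
  calc (N : ℝ) ^ (-(θ₃ / 16)) * s.card ≤ (X : ℝ) ^ (-(c * θ₃ / 32)) * X := mul_le_mul hexc hscard hs0.le (by positivity)
    _ = (X : ℝ) ^ (1 - c * θ₃ / 32) := by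
        rw [← Real.rpow_add_one hX0.ne']
        congr 1
        ring

end Pool.Agent.Results.MP_122e00_nt.ValuesAtPrimes
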